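import Mathlib

/-!
# A graph with minimum degree 9 and chromatic number 9 without an immersion of `K_10`

The graph is `K_9` with a copy of `K_{3,3,3,3}` attached by a bridge at every vertex.
-/

namespace Pool.Agent.Results.MP_5ee7f3_co.NoImmersion

open SimpleGraph

/-- `G` contains an immersion of the complete graph on `d` vertices: `d` different corners `v i` and
pairwise edge-disjoint paths `P i j` between all pairs of corners. -/
def HasImmersion {V : Type} (G : SimpleGraph V) (d : ℕ) : Prop :=
  ∃ (v : Fin d → V) (P : ∀ i j : Fin d, i < j → G.Walk (v i) (v j)),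
    Function.Injective v ∧ (∀ i j h, (P i j h).IsPath) ∧
      ∀ i j h i' j' h', (i, j) ≠ (i', j') →
        ∀ e, e ∈ (P i j h).edges → e ∉ (P i' j' h').edges

/-- the vertices: the hubs `inl k` and the vertices `inr (k, p, q)` of the `k`-th copy of
`K_{3,3,3,3}`, in the part `p` -/
abbrev V := Fin 9 ⊕ (Fin 9 × Fin 4 × Fin 3)

/-- adjacency -/
def adj : V → V → Prop
  | Sum.inl k, Sum.inl k' => k ≠ k'
  | Sum.inr x, Sum.inr y => x.1 = y.1 ∧ x.2.1 ≠ y.2.1
  | Sum.inl k, Sum.inr x => x = (k, 0, 0)
  | Sum.inr x, Sum.inl k => x = (k, 0, 0)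

instance : DecidableRel adj
  | Sum.inl k, Sum.inl k' => inferInstanceAs (Decidable (k ≠ k'))
  | Sum.inr x, Sum.inr y => inferInstanceAs (Decidable (x.1 = y.1 ∧ x.2.1 ≠ y.2.1))
  | Sum.inl k, Sum.inr x => inferInstanceAs (Decidable (x = (k, 0, 0)))
  | Sum.inr x, Sum.inl k => inferInstanceAs (Decidable (x = (k, 0, 0)))

/-- the graph -/
def G : SimpleGraph V where
  Adj := adj
  symm := ⟨by
    intro x y h
    rcases x with k | x <;> rcases y with k' | y
    · exact Ne.symm h
    · exact h
    · exact h
    · exact ⟨h.1.symm, Ne.symm h.2⟩⟩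
  loopless := ⟨by
    intro x h
    rcases x with k | x
    · exact h rfl
    · exact h.2 rfl⟩

instance : DecidableRel G.Adj := inferInstanceAs (DecidableRel adj)

/-- the `k`-th copy -/
def inS (k : Fin 9) : V → Prop
  | Sum.inl _ => False
  | Sum.inr x => x.1 = k

/-- the bridge of the `k`-th copy -/
def bridge (k : Fin 9) : Sym2 V := s(Sum.inl k, Sum.inr (k, 0, 0))

theorem cross_edge {k : Fin 9} {a b : V} (h : G.Adj a b) (ha : inS k a) (hb : ¬ inS k b) :
    s(a, b) = bridge k := by
  rcases a with k' | x <;> rcases b with k'' | y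
  · exact ha.elim
  · exact ha.elim
  · have h1 : x = (k'', 0, 0) := h
    have h2 : x.1 = k := ha
    have h3 : k'' = k := by rw [← h2, h1]
    rw [h1, h3]
    exact Sym2.eq_swap
  · have h1 : x.1 = y.1 ∧ x.2.1 ≠ y.2.1 := h
    have h2 : x.1 = k := ha
    exact (hb (by rw [← h1.1]; exact h2 : y.1 = k)).elim

theorem cross_walk {k : Fin 9} {a b : V} (p : G.Walk a b) (ha : inS k a) (hb : ¬ inS k b) :
    bridge k ∈ p.edges := by
  induction p with
  | nil => exact (hb ha).elim
  | @cons a c b h p ih =>
    rw [Walk.edges_cons]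
    by_cases hc : inS k c
    · exact List.mem_cons_of_mem _ (ih hc hb)
    · rw [cross_edge h ha hc]
      exact List.mem_cons_self

theorem cross_walk' {k : Fin 9} {a b : V} (p : G.Walk a b) (ha : ¬ inS k a) (hb : inS k b) :
    bridge k ∈ p.edges := by
  have := cross_walk p.reverse hb ha
  rwa [Walk.edges_reverse, List.mem_reverse] at this

theorem stay {k : Fin 9} {a b : V} (p : G.Walk a b) (hp : p.IsPath) (ha : inS k a) (hb : inS k b)
    {c : V} (hc : c ∈ p.support) : inS k c := by
  by_contra hcS
  have h1 := cross_walk (p.takeUntil c hc) ha hcS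
  have h2 := cross_walk' (p.dropUntil c hc) hcS hb
  have h3 := hp.isTrail.edges_nodup
  rw [← Walk.take_spec p hc, Walk.edges_append] at h3
  exact (List.disjoint_of_nodup_append h3) h1 h2

theorem first_step {W : Type} {H : SimpleGraph W} {a b : W} (p : H.Walk a b) (hne : a ≠ b) :
    ∃ (c : W) (h : H.Adj a c) (r : H.Walk c b), p = Walk.cons h r := by
  cases p with
  | nil => exact (hne rfl).elim
  | cons h r => exact ⟨_, h, r, rfl⟩

theorem third : ∀ i j : Fin 10, ∃ l : Fin 10, l ≠ i ∧ l ≠ j := by decide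

theorem two_parts : ∀ a b : Fin 4, ∃ c d : Fin 4, c ≠ d ∧ c ≠ a ∧ c ≠ b ∧ d ≠ a ∧ d ≠ b := by decide

theorem card_eq : ∀ (i : Fin 10) (p : Fin 4),
    Fintype.card {j : Fin 10 // i ≠ j} = Fintype.card {w : Fin 4 × Fin 3 // p ≠ w.1} := by decide

/-- The graph has no immersion of `K_10`. -/
theorem no_immersion : ¬ HasImmersion G 10 := by
  classical
  rintro ⟨v, P, hv, hP, hdis⟩
  -- symmetric version of the paths
  obtain ⟨Q, hQ, hQd⟩ : ∃ Q : ∀ i j : Fin 10, i ≠ j → G.Walk (v i) (v j),
      (∀ i j h, (Q i j h).IsPath) ∧ ∀ i j h i' j' h', s(i, j) ≠ s(i', j') →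
        ∀ e, e ∈ (Q i j h).edges → e ∉ (Q i' j' h').edges := by
    let Q : ∀ i j : Fin 10, i ≠ j → G.Walk (v i) (v j) := fun i j h =>
      if h' : i < j then P i j h' else (P j i (lt_of_le_of_ne (not_lt.mp h') h.symm)).reverse
    have hmem : ∀ i j h e, e ∈ (Q i j h).edges → ∃ (a b : Fin 10) (hab : a < b),
        s(a, b) = s(i, j) ∧ e ∈ (P a b hab).edges := by
      intro i j h e he
      by_cases h' : i < j
      · simp only [Q, dif_pos h'] at he
        exact ⟨i, j, h', rfl, he⟩
      · simp only [Q, dif_neg h', Walk.edges_reverse, List.mem_reverse] at he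
        exact ⟨j, i, _, Sym2.eq_swap, he⟩
    refine ⟨Q, ?_, ?_⟩
    · intro i j h
      by_cases h' : i < j
      · simp only [Q, dif_pos h']
        exact hP _ _ _
      · simp only [Q, dif_neg h']
        exact (hP _ _ _).reverse
    · intro i j h i' j' h' hne e he he'
      obtain ⟨a, b, hab, h1, h2⟩ := hmem i j h e he
      obtain ⟨a', b', hab', h1', h2'⟩ := hmem i' j' h' e he'
      refine hdis a b hab a' b' hab' ?_ e h2 h2'
      intro heq
      apply hne
      rw [← h1, ← h1']
      simp only [Prod.mk.injEq] at heq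
      rw [heq.1, heq.2]
  -- all corners are in one copy
  obtain ⟨k, hk⟩ : ∃ k, ∀ i, inS k (v i) := by
    by_cases hex : ∃ k i, inS k (v i)
    · obtain ⟨k, i, hi⟩ := hex
      refine ⟨k, fun j => ?_⟩
      by_contra hj
      have hij : i ≠ j := by
        rintro rfl
        exact hj hi
      obtain ⟨l, hli, hlj⟩ := third i j
      have h1 := cross_walk (Q i j hij) hi hj
      by_cases hl : inS k (v l)
      · have h2 := cross_walk (Q l j hlj) hl hj
        refine hQd i j hij l j hlj ?_ _ h1 h2
        rw [Ne, Sym2.eq_iff]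
        rintro (⟨h, -⟩ | ⟨h, h'⟩)
        · exact hli h.symm
        · exact hij h
      · have h2 := cross_walk (Q i l hli.symm) hi hl
        refine hQd i j hij i l hli.symm ?_ _ h1 h2
        rw [Ne, Sym2.eq_iff]
        rintro (⟨-, h⟩ | ⟨h, h'⟩)
        · exact hlj h.symm
        · exact hli h.symm
    · exfalso
      push Not at hex
      have hhub : ∀ i, ∃ k : Fin 9, v i = Sum.inl k := by
        intro i
        rcases hvi : v i with k | x
        · exact ⟨k, rfl⟩
        · exact (hex x.1 i (by rw [hvi]; rfl)).elim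
      choose f hf using hhub
      have hfi : Function.Injective f := by
        intro i j h
        apply hv
        rw [hf, hf, h]
      have := Fintype.card_le_of_injective f hfi
      simp at this
  -- the coordinates of the corners
  obtain ⟨u, hu⟩ : ∃ u : Fin 10 → Fin 4 × Fin 3, ∀ i, v i = Sum.inr (k, u i) := by
    have : ∀ i, ∃ w : Fin 4 × Fin 3, v i = Sum.inr (k, w) := by
      intro i
      have := hk i
      rcases hvi : v i with k' | ⟨k', w⟩
      · rw [hvi] at this; exact this.elim
      · rw [hvi] at this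
        exact ⟨w, by rw [show k' = k from this]⟩
    choose u hu using this
    exact ⟨u, hu⟩
  have hui : Function.Injective u := by
    intro i j h
    apply hv
    rw [hu, hu, h]
  -- every vertex on a path has the form `(k, w)`
  have hform : ∀ i j h c, c ∈ (Q i j h).support → ∃ w : Fin 4 × Fin 3, c = Sum.inr (k, w) := by
    intro i j h c hc
    have := stay (Q i j h) (hQ i j h) (hk i) (hk j) hc
    rcases c with k' | ⟨k', w⟩
    · exact this.elim
    · exact ⟨w, by rw [show k' = k from this]⟩
  have hadj : ∀ w w' : Fin 4 × Fin 3, G.Adj (Sum.inr (k, w)) (Sum.inr (k, w')) ↔ w.1 ≠ w'.1 := by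
    intro w w'
    exact ⟨fun h => h.2, fun h => ⟨rfl, h⟩⟩
  -- all edges at a corner are used by the paths ending at the corner
  have hfirst : ∀ i j (h : i ≠ j), ∃ w : Fin 4 × Fin 3, (u i).1 ≠ w.1 ∧
      s(v i, Sum.inr (k, w)) ∈ (Q i j h).edges := by
    intro i j h
    obtain ⟨c, hc, r, hr⟩ := first_step (Q i j h) (fun h' => h (hv h'))
    obtain ⟨w, rfl⟩ := hform i j h c (by rw [hr]; simp)
    refine ⟨w, ?_, by rw [hr]; simp⟩
    rw [hu] at hc
    exact (hadj _ _).mp hc
  have hall : ∀ i (w : Fin 4 × Fin 3), (u i).1 ≠ w.1 →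
      ∃ j, ∃ h : i ≠ j, s(v i, Sum.inr (k, w)) ∈ (Q i j h).edges := by
    intro i
    choose f hf1 hf2 using hfirst i
    -- an injection between sets with nine elements
    let F : {j : Fin 10 // i ≠ j} → {w : Fin 4 × Fin 3 // (u i).1 ≠ w.1} := fun j =>
      ⟨f j.1 j.2, hf1 j.1 j.2⟩
    have hF : Function.Injective F := by
      rintro ⟨j, hj⟩ ⟨j', hj'⟩ heq
      by_contra hne
      have h1 : f j hj = f j' hj' := congrArg Subtype.val heq
      have h2 := hf2 j hj
      have h3 := hf2 j' hj'
      rw [← h1] at h3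
      refine hQd i j hj i j' hj' ?_ _ h2 h3
      rw [Ne, Sym2.eq_iff]
      rintro (⟨-, h⟩ | ⟨h, -⟩)
      · exact hne (Subtype.ext h)
      · exact hj' h
    have hcard := card_eq i (u i).1
    have hbij : Function.Bijective F := (Fintype.bijective_iff_injective_and_card F).mpr ⟨hF, hcard⟩
    intro w hw
    obtain ⟨⟨j, hj⟩, hj'⟩ := hbij.2 ⟨w, hw⟩
    refine ⟨j, hj, ?_⟩
    have : f j hj = w := congrArg Subtype.val hj'
    rw [← this]
    exact hf2 j hj
  -- so no other path has an edge at the corner
  have hno : ∀ i j h l (w : Fin 4 × Fin 3), l ≠ i → l ≠ j → (u l).1 ≠ w.1 →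
      s(v l, Sum.inr (k, w)) ∉ (Q i j h).edges := by
    intro i j h l w hli hlj hw he
    obtain ⟨m, hm, he'⟩ := hall l w hw
    refine hQd i j h l m hm ?_ _ he he'
    rw [Ne, Sym2.eq_iff]
    rintro (⟨h1, -⟩ | ⟨-, h1⟩)
    · exact hli h1.symm
    · exact hlj h1.symm
  -- the two vertices of the copy which are not corners
  obtain ⟨x, y, hxy⟩ : ∃ x y : Fin 4 × Fin 3, ∀ w, (∀ i, u i ≠ w) → w = x ∨ w = y := by
    have h1 : (Finset.univ \ Finset.univ.image u).card = 2 := by
      rw [Finset.card_sdiff_of_subset (Finset.subset_univ _),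
        Finset.card_image_of_injective _ hui]
      simp
    obtain ⟨x, y, -, h2⟩ := Finset.card_eq_two.mp h1
    refine ⟨x, y, fun w hw => ?_⟩
    have h3 : w ∈ Finset.univ \ Finset.univ.image u := by
      simp only [Finset.mem_sdiff, Finset.mem_univ, true_and, Finset.mem_image, not_exists]
      exact hw
    rw [h2] at h3
    simpa using h3
  -- a path between two corners in the same part
  have hpath : ∀ i j (h : i ≠ j), (u i).1 = (u j).1 →
      (∃ z, (z = x ∨ z = y) ∧ s(v i, Sum.inr (k, z)) ∈ (Q i j h).edges ∧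
        s(v j, Sum.inr (k, z)) ∈ (Q i j h).edges) ∨
      s((Sum.inr (k, x) : V), Sum.inr (k, y)) ∈ (Q i j h).edges := by
    intro i j h hpart
    obtain ⟨c, hc, r, hr⟩ := first_step (Q i j h) (fun h' => h (hv h'))
    obtain ⟨z, rfl⟩ := hform i j h c (by rw [hr]; simp)
    have hiz : (u i).1 ≠ z.1 := by
      rw [hu] at hc
      exact (hadj _ _).mp hc
    have hzcorner : ∀ l, u l ≠ z := by
      rintro l rfl
      have hli : l ≠ i := by rintro rfl; exact hiz rfl
      have hlj : l ≠ j := by rintro rfl; exact hiz hpart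
      refine hno i j h l (u i) hli hlj (Ne.symm hiz) ?_
      rw [hr, Walk.edges_cons, hu l, ← hu i, Sym2.eq_swap]
      exact List.mem_cons_self
    have hz := hxy z hzcorner
    have hznej : (Sum.inr (k, z) : V) ≠ v j := by
      rw [hu j]
      intro h'
      have : z = u j := by simpa using h'
      exact hzcorner j this.symm
    obtain ⟨c', hc', r', hr'⟩ := first_step r hznej
    obtain ⟨w, rfl⟩ := hform i j h c' (by rw [hr, hr']; simp)
    have hzw : z.1 ≠ w.1 := (hadj _ _).mp hc'
    have hin : s((Sum.inr (k, z) : V), Sum.inr (k, w)) ∈ (Q i j h).edges := by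
      rw [hr, hr']; simp
    by_cases hwj : w = u j
    · left
      refine ⟨z, hz, by rw [hr]; simp, ?_⟩
      have e1 : s(v j, (Sum.inr (k, z) : V)) = s((Sum.inr (k, z) : V), Sum.inr (k, w)) := by
        rw [hu j, ← hwj, Sym2.eq_swap]
      rw [e1]
      exact hin
    · right
      have hwcorner : ∀ l, u l ≠ w := by
        rintro l rfl
        have hlj : l ≠ j := by rintro rfl; exact hwj rfl
        have hli : l ≠ i := by
          rintro rfl
          have hp := hQ l j h
          rw [hr, Walk.cons_isPath_iff] at hp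
          apply hp.2
          rw [hr', hu l]
          simp
        refine hno i j h l z hli hlj (Ne.symm hzw) ?_
        rw [hu l, Sym2.eq_swap]
        exact hin
      have hw := hxy w hwcorner
      have hne : z ≠ w := by rintro rfl; exact hzw rfl
      rcases hz with rfl | rfl <;> rcases hw with rfl | rfl
      · exact (hne rfl).elim
      · exact hin
      · rw [Sym2.eq_swap]; exact hin
      · exact (hne rfl).elim
  -- every part consisting of corners needs the edge `xy`
  have hpart : ∀ p : Fin 4, p ≠ x.1 → p ≠ y.1 → ∃ i j, ∃ h : i ≠ j, (u i).1 = p ∧ (u j).1 = p ∧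
      s((Sum.inr (k, x) : V), Sum.inr (k, y)) ∈ (Q i j h).edges := by
    intro p hpx hpy
    have hcor : ∀ q : Fin 3, ∃ i, u i = (p, q) := by
      intro q
      by_contra hc
      push Not at hc
      rcases hxy (p, q) hc with h | h
      · exact hpx (by rw [← h])
      · exact hpy (by rw [← h])
    obtain ⟨i0, h0⟩ := hcor 0
    obtain ⟨i1, h1⟩ := hcor 1
    obtain ⟨i2, h2⟩ := hcor 2
    have n01 : i0 ≠ i1 := by
      rintro rfl
      rw [h0] at h1
      simp at h1
    have n02 : i0 ≠ i2 := by
      rintro rfl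
      rw [h0] at h2
      simp at h2
    have n12 : i1 ≠ i2 := by
      rintro rfl
      rw [h1] at h2
      simp at h2
    rcases hpath i0 i1 n01 (by rw [h0, h1]) with ⟨z01, hz01, e01, e01'⟩ | h
    · rcases hpath i0 i2 n02 (by rw [h0, h2]) with ⟨z02, hz02, e02, e02'⟩ | h
      · rcases hpath i1 i2 n12 (by rw [h1, h2]) with ⟨z12, hz12, e12, e12'⟩ | h
        · exfalso
          have a1 : z01 ≠ z02 := by
            rintro rfl
            refine hQd i0 i1 n01 i0 i2 n02 ?_ _ e01 e02
            rw [Ne, Sym2.eq_iff]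
            rintro (⟨-, h⟩ | ⟨h, -⟩)
            · exact n12 h
            · exact n02 h
          have a2 : z01 ≠ z12 := by
            rintro rfl
            refine hQd i0 i1 n01 i1 i2 n12 ?_ _ e01' e12
            rw [Ne, Sym2.eq_iff]
            rintro (⟨h, -⟩ | ⟨h, -⟩)
            · exact n01 h
            · exact n02 h
          have a3 : z02 ≠ z12 := by
            rintro rfl
            refine hQd i0 i2 n02 i1 i2 n12 ?_ _ e02' e12'
            rw [Ne, Sym2.eq_iff]
            rintro (⟨h, -⟩ | ⟨h, -⟩)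
            · exact n01 h
            · exact n02 h
          rcases hz01 with rfl | rfl <;> rcases hz02 with rfl | rfl <;> rcases hz12 with rfl | rfl <;>
            first | exact a1 rfl | exact a2 rfl | exact a3 rfl
        · exact ⟨i1, i2, n12, by rw [h1], by rw [h2], h⟩
      · exact ⟨i0, i2, n02, by rw [h0], by rw [h2], h⟩
    · exact ⟨i0, i1, n01, by rw [h0], by rw [h1], h⟩
  obtain ⟨p1, p2, hp12, h1x, h1y, h2x, h2y⟩ := two_parts x.1 y.1
  obtain ⟨i, j, hij, hi, hj, he⟩ := hpart p1 h1x h1y
  obtain ⟨i', j', hij', hi', hj', he'⟩ := hpart p2 h2x h2y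
  refine hQd i j hij i' j' hij' ?_ _ he he'
  rw [Ne, Sym2.eq_iff]
  rintro (⟨h, -⟩ | ⟨h, -⟩)
  · apply hp12; rw [← hi, ← hi', h]
  · apply hp12; rw [← hi, ← hj', h]

theorem degree_ge : ∀ v : V, 9 ≤ G.degree v := by decide +kernel

theorem degree_zero : G.degree (Sum.inl 0) = 9 := by decide +kernel

theorem minDegree_eq : G.minDegree = 9 := by
  apply le_antisymm
  · calc G.minDegree ≤ G.degree (Sum.inl 0) := G.minDegree_le_degree _
      _ = 9 := degree_zero
  · exact G.le_minDegree_of_forall_le_degree 9 degree_ge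

/-- a colouring with nine colours -/
def col : V → Fin 9
  | Sum.inl k => k
  | Sum.inr x => x.1 + 1 + Fin.castLE (by norm_num) x.2.1

theorem col_valid : ∀ v w : V, G.Adj v w → col v ≠ col w := by decide +kernel

theorem chromaticNumber_eq : G.chromaticNumber = 9 := by
  apply le_antisymm
  · have h : G.Colorable 9 := ⟨Coloring.mk col fun {v w} h => col_valid v w h⟩
    exact_mod_cast h.chromaticNumber_le
  · have h : G.IsClique ((Finset.univ : Finset (Fin 9)).map Function.Embedding.inl : Finset V) := by
      intro a ha b hb hab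
      simp only [Finset.coe_map, Finset.coe_univ, Set.image_univ, Set.mem_range] at ha hb
      obtain ⟨k, rfl⟩ := ha
      obtain ⟨l, rfl⟩ := hb
      intro h
      exact hab (by rw [h])
    have h2 := h.card_le_chromaticNumber
    simpa using h2

/-- **Positive answer.** There is a graph with minimum degree 9 and chromatic number 9 which does
not contain an immersion of the complete graph on 10 vertices. -/
theorem result : ∃ (W : Type) (_ : Fintype W) (H : SimpleGraph W) (_ : DecidableRel H.Adj),
    H.minDegree = 10 - 1 ∧ H.chromaticNumber = 10 - 1 ∧ ¬ HasImmersion H 10 :=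
  ⟨V, inferInstance, G, inferInstance, minDegree_eq, by rw [chromaticNumber_eq]; rfl, no_immersion⟩

end Pool.Agent.Results.MP_5ee7f3_co.NoImmersion
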